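import Pool.Agent.V11126.LapSpread
import Pool.Agent.V11126.SpreadLt

namespace Pool.Agent.Results.MP_e61cf5_co.PolygonalGap

open Matrix Pool.Agent.V11126.LapSpread Pool.Agent.V11126.SpreadLt

variable {V : Type*} [Fintype V]

/-- The Laplacian as a complex matrix. -/
noncomputable def lapC (A : V → V → Prop) : Matrix V V ℂ := (lap A).map (fun t : ℝ => (t : ℂ))

/-- The restricted numerical range `W_r(Γ)`. -/
def Wr (A : V → V → Prop) : Set ℂ :=
  {w | ∃ x : V → ℂ, ∑ i, x i = 0 ∧ ∑ i, ‖x i‖ ^ 2 = 1 ∧ w = star x ⬝ᵥ (lapC A *ᵥ x)}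

/-- The columns of the `n × (n-1)` matrix `Q` form an orthonormal basis of `e^⊥`. -/
def IsRestrictor (Q : Matrix V (Fin (Fintype.card V - 1)) ℂ) : Prop :=
  Qᴴ * Q = 1 ∧ ∀ j, ∑ i, Q i j = 0

/-- `Γ` is polygonal: `W_r(Γ)` is the convex hull of the eigenvalues of `Q* L Q`. -/
def IsPolygonal (A : V → V → Prop) : Prop :=
  ∃ Q : Matrix V (Fin (Fintype.card V - 1)) ℂ, IsRestrictor Q ∧
    Wr A = convexHull ℝ (spectrum ℂ (Qᴴ * lapC A * Q))

lemma re_form (A : V → V → Prop) (x : V → ℂ) :
    (star x ⬝ᵥ (lapC A *ᵥ x)).re = (fun i => (x i).re) ⬝ᵥ (lap A *ᵥ fun i => (x i).re)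
      + (fun i => (x i).im) ⬝ᵥ (lap A *ᵥ fun i => (x i).im) := by
  unfold dotProduct mulVec dotProduct lapC
  simp only [Matrix.map_apply, Pi.star_apply, Finset.mul_sum]
  rw [Complex.re_sum, ← Finset.sum_add_distrib]
  refine Finset.sum_congr rfl fun i _ => ?_
  rw [Complex.re_sum, ← Finset.sum_add_distrib]
  refine Finset.sum_congr rfl fun j _ => ?_
  simp

lemma real_form (A : V → V → Prop) (x : V → ℝ) :
    star (fun i => (x i : ℂ)) ⬝ᵥ (lapC A *ᵥ fun i => (x i : ℂ)) = ((x ⬝ᵥ (lap A *ᵥ x) : ℝ) : ℂ) := by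
  unfold dotProduct mulVec dotProduct lapC
  simp only [Matrix.map_apply, Pi.star_apply, Finset.mul_sum]
  push_cast
  refine Finset.sum_congr rfl fun i _ => ?_
  refine Finset.sum_congr rfl fun j _ => ?_
  simp

lemma values_nonempty (A : V → V → Prop) (hn : 2 ≤ Fintype.card V) : (values A).Nonempty := by
  classical
  obtain ⟨i, j, hij⟩ := Fintype.exists_pair_of_one_lt_card (α := V) (by omega)
  refine ⟨_, mem_values A (fun v => (if v = i then 1 else 0) - (if v = j then 1 else 0)) _ ?_ ?_ rfl⟩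
  · refine Finset.sum_pos' (fun _ _ => sq_nonneg _) ⟨i, Finset.mem_univ _, ?_⟩
    simp [hij]
  · simp

/-- the minimum of the real parts is the real part of an eigenvalue -/
lemma exists_eig (A : V → V → Prop) (hn : 2 ≤ Fintype.card V)
    (Q : Matrix V (Fin (Fintype.card V - 1)) ℂ)
    (h : Wr A = convexHull ℝ (spectrum ℂ (Qᴴ * lapC A * Q))) :
    ∃ l ∈ spectrum ℂ (Qᴴ * lapC A * Q), l.re = alpha A := by
  have hne : Nonempty (Fin (Fintype.card V - 1)) := ⟨⟨0, by omega⟩⟩
  have hfin : (spectrum ℂ (Qᴴ * lapC A * Q)).Finite := Matrix.finite_spectrum _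
  have hnon : (spectrum ℂ (Qᴴ * lapC A * Q)).Nonempty :=
    spectrum.nonempty_of_isAlgClosed_of_finiteDimensional ℂ _
  obtain ⟨l, hl, hmin⟩ := Set.exists_min_image _ Complex.re hfin hnon
  refine ⟨l, hl, le_antisymm ?_ ?_⟩
  · refine le_csInf (values_nonempty A hn) ?_
    rintro t ⟨x, hx0, hx1, rfl⟩
    have hw : ((x ⬝ᵥ (lap A *ᵥ x) : ℝ) : ℂ) ∈ Wr A := by
      refine ⟨fun i => (x i : ℂ), ?_, ?_, (real_form A x).symm⟩
      · rw [← Complex.ofReal_sum, hx0, Complex.ofReal_zero]
      · simpa using hx1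
    rw [h] at hw
    have hsub : convexHull ℝ (spectrum ℂ (Qᴴ * lapC A * Q)) ⊆ {w : ℂ | l.re ≤ w.re} :=
      convexHull_min (fun w hw => hmin w hw) (convex_halfSpace_re_ge _)
    exact hsub hw
  · have hw : l ∈ Wr A := by rw [h]; exact subset_convexHull ℝ _ hl
    obtain ⟨x, hx0, hx1, hlx⟩ := hw
    rw [hlx, re_form]
    have h1 : ∑ i, (x i).re = 0 := by rw [← Complex.re_sum, hx0]; rfl
    have h2 : ∑ i, (x i).im = 0 := by rw [← Complex.im_sum, hx0]; rfl
    have b1 := (quad_bounds A (fun i => (x i).re) h1).1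
    have b2 := (quad_bounds A (fun i => (x i).im) h2).1
    have h3 : ∑ i, (x i).re ^ 2 + ∑ i, (x i).im ^ 2 = 1 := by
      rw [← Finset.sum_add_distrib, ← hx1]
      refine Finset.sum_congr rfl fun i _ => ?_
      rw [← Complex.normSq_eq_norm_sq, Complex.normSq_apply]; ring
    have h4 : alpha A * (∑ i, (x i).re ^ 2 + ∑ i, (x i).im ^ 2) = alpha A := by
      rw [h3, mul_one]
    nlinarith

/-- the completeness relation `Q Q* + e eᵀ / n = 1` -/
lemma restrictor_complete [DecidableEq V] (hn : 1 ≤ Fintype.card V)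
    (Q : Matrix V (Fin (Fintype.card V - 1)) ℂ) (hQ : IsRestrictor Q) :
    (Matrix.of fun _ _ : V => (1 / (Fintype.card V : ℂ))) + Q * Qᴴ = 1 := by
  obtain ⟨hQ1, hQ2⟩ := hQ
  set r : ℝ := Real.sqrt (Fintype.card V) with hr
  have hr2 : r * r = Fintype.card V := Real.mul_self_sqrt (by positivity)
  have hnpos : (0 : ℝ) < Fintype.card V := by exact_mod_cast hn
  have hr0 : r ≠ 0 := by
    rw [hr]; exact (Real.sqrt_pos.2 hnpos).ne'
  set E : Matrix V Unit ℂ := Matrix.of fun _ _ => ((r⁻¹ : ℝ) : ℂ) with hE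
  have hrc : ((r⁻¹ : ℝ) : ℂ) * ((r⁻¹ : ℝ) : ℂ) = 1 / (Fintype.card V : ℂ) := by
    rw [← Complex.ofReal_mul, ← mul_inv, hr2]
    push_cast; rw [one_div]
  have hnc : (Fintype.card V : ℂ) ≠ 0 := by exact_mod_cast hnpos.ne'
  have e1 : Eᴴ * E = 1 := by
    ext i j
    rw [Matrix.mul_apply]
    simp only [hE, Matrix.conjTranspose_apply, Matrix.of_apply, Complex.star_def,
      Complex.conj_ofReal, hrc, Finset.sum_const, Finset.card_univ, nsmul_eq_mul]
    rw [mul_one_div, div_self hnc]
    simp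
  have e2 : Eᴴ * Q = 0 := by
    ext i j
    rw [Matrix.mul_apply]
    simp only [hE, Matrix.conjTranspose_apply, Matrix.of_apply]
    rw [← Finset.mul_sum, hQ2 j, mul_zero]
    rfl
  have e3 : Qᴴ * E = 0 := by
    have := congrArg Matrix.conjTranspose e2
    rwa [Matrix.conjTranspose_mul, Matrix.conjTranspose_conjTranspose,
      Matrix.conjTranspose_zero] at this
  have hU : (Matrix.fromCols E Q)ᴴ * Matrix.fromCols E Q = 1 := by
    rw [Matrix.conjTranspose_fromCols_eq_fromRows_conjTranspose, Matrix.fromRows_mul_fromCols,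
      e1, e2, e3, hQ1, Matrix.fromBlocks_one]
  have hcard : Fintype.card (Unit ⊕ Fin (Fintype.card V - 1)) = Fintype.card V := by
    simp; omega
  have hU' := (Matrix.mul_eq_one_comm_of_card_eq (m := Unit ⊕ Fin (Fintype.card V - 1)) (n := V) (R := ℂ)
    (eq := hcard)).1 hU
  rw [Matrix.conjTranspose_fromCols_eq_fromRows_conjTranspose, Matrix.fromCols_mul_fromRows] at hU'
  rw [← hU']
  congr 1
  ext i j
  rw [Matrix.mul_apply]
  simp only [hE, Matrix.conjTranspose_apply, Matrix.of_apply, Complex.star_def,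
      Complex.conj_ofReal, hrc]
  simp

/-- the Laplacian is an integer matrix -/
lemma lap_int [DecidableEq V] (A : V → V → Prop) :
    ∃ M : Matrix V V ℤ, lapC A = M.map (Int.castRingHom ℂ) := by
  classical
  refine ⟨Matrix.diagonal (fun i => ∑ j, if A i j then 1 else 0)
    - Matrix.of fun i j => if A i j then 1 else 0, ?_⟩
  ext i j
  unfold lapC lap
  simp only [Matrix.map_apply, Matrix.sub_apply, Matrix.diagonal_apply, adj_apply,
    Matrix.of_apply]
  by_cases h : i = j
  · subst h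
    by_cases h2 : A i i <;> simp [h2]
  · by_cases h2 : A i j <;> simp [h, h2]

/-- eigenvalues of the compression are algebraic integers -/
lemma eig_integral (A : V → V → Prop) (hn : 2 ≤ Fintype.card V)
    (Q : Matrix V (Fin (Fintype.card V - 1)) ℂ) (hQ : IsRestrictor Q) (l : ℂ)
    (hl : l ∈ spectrum ℂ (Qᴴ * lapC A * Q)) : IsIntegral ℤ l := by
  classical
  by_cases hl0 : l = 0
  · rw [hl0]; exact isIntegral_zero
  -- an eigenvector of the compression
  have h1 : ∃ y, y ≠ 0 ∧ (algebraMap ℂ _ l - Qᴴ * lapC A * Q) *ᵥ y = 0 := by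
    rw [Matrix.exists_mulVec_eq_zero_iff]
    rw [spectrum.mem_iff, Matrix.isUnit_iff_isUnit_det, isUnit_iff_ne_zero, not_not] at hl
    exact hl
  obtain ⟨y, hy0, hy⟩ := h1
  have hy' : Qᴴ *ᵥ (lapC A *ᵥ (Q *ᵥ y)) = l • y := by
    rw [Matrix.sub_mulVec, sub_eq_zero] at hy
    rw [Matrix.mulVec_mulVec, Matrix.mulVec_mulVec, ← hy]
    rw [Algebra.algebraMap_eq_smul_one, Matrix.smul_mulVec, Matrix.one_mulVec]
  set z := Q *ᵥ y with hz
  have hz0 : z ≠ 0 := by
    intro h0
    apply hy0
    have : Qᴴ *ᵥ z = y := by rw [hz, Matrix.mulVec_mulVec, hQ.1, Matrix.one_mulVec]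
    rw [h0, Matrix.mulVec_zero] at this
    exact this.symm
  have hzsum : ∑ i, z i = 0 := by
    rw [hz]
    unfold mulVec dotProduct
    rw [Finset.sum_comm]
    refine Finset.sum_eq_zero fun j _ => ?_
    rw [← Finset.sum_mul, hQ.2 j, zero_mul]
  -- `L z = l z + c e`
  obtain ⟨c, hc⟩ : ∃ c : ℂ, lapC A *ᵥ z = fun i => l * z i + c := by
    refine ⟨(1 / (Fintype.card V : ℂ)) * ∑ i, (lapC A *ᵥ z) i, ?_⟩
    have := congrArg (fun M => M *ᵥ (lapC A *ᵥ z)) (restrictor_complete (by omega) Q hQ)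
    simp only [Matrix.add_mulVec, Matrix.one_mulVec, ← Matrix.mulVec_mulVec] at this
    rw [hy', Matrix.mulVec_smul, ← hz] at this
    set w := lapC A *ᵥ z with hw
    have hi : ∀ i, ((Matrix.of fun _ _ : V => (1 / (Fintype.card V : ℂ))) *ᵥ w) i
        = (1 / (Fintype.card V : ℂ)) * ∑ i, w i := by
      intro i
      unfold mulVec dotProduct
      simp only [Matrix.of_apply]
      rw [Finset.mul_sum]
    funext i
    have h2 := congrFun this i
    rw [Pi.add_apply, Pi.smul_apply, smul_eq_mul, hi] at h2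
    exact h2.symm.trans (add_comm _ _)
  -- an eigenvector of `L`
  set z' : V → ℂ := fun i => z i + c / l with hz'
  have hL1 : ∀ i, ∑ j, lapC A i j = 0 := by
    intro i
    have : lapC A i = fun j => ((lap A i j : ℝ) : ℂ) := rfl
    rw [this, ← Complex.ofReal_sum]
    have h0 : ∑ j, lap A i j = 0 := by
      unfold lap
      simp [Matrix.diagonal_apply, Finset.sum_sub_distrib]
    rw [h0]; rfl
  have hLz' : lapC A *ᵥ z' = l • z' := by
    funext i
    have h1 : (lapC A *ᵥ z') i = (lapC A *ᵥ z) i + (∑ j, lapC A i j) * (c / l) := by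
      unfold mulVec dotProduct
      rw [hz', Finset.sum_mul, ← Finset.sum_add_distrib]
      exact Finset.sum_congr rfl fun j _ => by ring
    rw [h1, hL1, zero_mul, add_zero, hc, Pi.smul_apply, smul_eq_mul, hz']
    field_simp
  have hz'0 : z' ≠ 0 := by
    intro h0
    have h1 : ∀ i, z i = - (c / l) := by
      intro i
      have := congrFun h0 i
      simp only [hz', Pi.zero_apply] at this
      linear_combination this
    have h2 : (Fintype.card V : ℂ) * (c / l) = 0 := by
      have h3 := hzsum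
      simp only [h1] at h3
      simpa using h3
    have hnc : (Fintype.card V : ℂ) ≠ 0 := by
      have : Fintype.card V ≠ 0 := by omega
      exact_mod_cast this
    have h3 : c / l = 0 := by
      rcases mul_eq_zero.1 h2 with h | h
      · exact absurd h hnc
      · exact h
    apply hz0
    funext i
    rw [h1, h3]; simp
  obtain ⟨M, hM⟩ := lap_int A
  have hdet : (M.charpoly.map (Int.castRingHom ℂ)).eval l = 0 := by
    rw [← Matrix.charpoly_map, ← hM, Matrix.eval_charpoly]
    rw [← Matrix.exists_mulVec_eq_zero_iff]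
    refine ⟨z', hz'0, ?_⟩
    rw [Matrix.sub_mulVec, hLz', sub_eq_zero]
    simp
  refine ⟨M.charpoly, M.charpoly_monic, ?_⟩
  rw [Polynomial.eval_map] at hdet
  exact hdet

/-! ### the quadratic form of a digraph of spread less than one -/

open Classical in
/-- arc indicator -/
noncomputable def aN (A : V → V → Prop) (i j : V) : ℕ := if A i j then 1 else 0

/-- out-degree -/
noncomputable def dN (A : V → V → Prop) (i : V) : ℕ := ∑ j, aN A i j

/-- `d⁺(i) + d⁺(j)` plus the number of arcs between `i` and `j` -/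
noncomputable def Sn (A : V → V → Prop) (i j : V) : ℕ := dN A i + dN A j + aN A i j + aN A j i

lemma Sn_symm (A : V → V → Prop) (i j : V) : Sn A i j = Sn A j i := by unfold Sn; ring

lemma adj_eq (A : V → V → Prop) (i j : V) : adj A i j = (aN A i j : ℝ) := by
  classical
  rw [adj_apply]; unfold aN
  split_ifs <;> simp

/-- the quadratic form in terms of the numbers `Sn` -/
lemma two_quad (A : V → V → Prop) (x : V → ℝ) :
    2 * (x ⬝ᵥ (lap A *ᵥ x)) = ∑ i, 2 * (dN A i : ℝ) * x i ^ 2
      - ∑ i, ∑ j, ((aN A i j : ℝ) + aN A j i) * (x i * x j) := by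
  rw [quad]
  have e1 : ∑ i, ∑ j, adj A i j * (x i * (x i - x j)) = ∑ i, (dN A i : ℝ) * x i ^ 2
      - ∑ i, ∑ j, (aN A i j : ℝ) * (x i * x j) := by
    rw [← Finset.sum_sub_distrib]
    refine Finset.sum_congr rfl fun i _ => ?_
    unfold dN
    push_cast
    rw [Finset.sum_mul, ← Finset.sum_sub_distrib]
    refine Finset.sum_congr rfl fun j _ => ?_
    rw [adj_eq]; ring
  have e2 : ∑ i, ∑ j, (aN A j i : ℝ) * (x i * x j) = ∑ i, ∑ j, (aN A i j : ℝ) * (x i * x j) := by
    rw [Finset.sum_comm]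
    refine Finset.sum_congr rfl fun i _ => Finset.sum_congr rfl fun j _ => ?_
    ring
  have e3 : ∑ i, ∑ j, ((aN A i j : ℝ) + aN A j i) * (x i * x j)
      = 2 * ∑ i, ∑ j, (aN A i j : ℝ) * (x i * x j) := by
    simp only [add_mul, Finset.sum_add_distrib]
    rw [e2]; ring
  rw [e1, e3, mul_sub, Finset.mul_sum]
  congr 1
  exact Finset.sum_congr rfl fun i _ => by ring

lemma test_pair (A : V → V → Prop) (hirr : ∀ v, ¬ A v v) (i j : V) (hij : i ≠ j) :
    2 * alpha A ≤ Sn A i j ∧ (Sn A i j : ℝ) ≤ 2 * beta A := by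
  classical
  set x : V → ℝ := fun v => (if v = i then 1 else 0) - (if v = j then 1 else 0) with hx
  have hx0 : ∑ v, x v = 0 := by simp [hx]
  have hx2 : ∑ v, x v ^ 2 = 2 := by
    have : ∀ v, x v ^ 2 = (if v = i then (1 : ℝ) else 0) + (if v = j then (1 : ℝ) else 0) := by
      intro v
      simp only [hx]
      by_cases h1 : v = i
      · subst h1; simp [hij]
      · by_cases h2 : v = j
        · subst h2; simp [Ne.symm hij]
        · simp [h1, h2]
    rw [Finset.sum_congr rfl fun v _ => this v, Finset.sum_add_distrib]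
    simp; norm_num
  have hq : 2 * (x ⬝ᵥ (lap A *ᵥ x)) = 2 * Sn A i j := by
    rw [two_quad A x]
    have h1 : ∑ v, 2 * (dN A v : ℝ) * x v ^ 2 = 2 * (dN A i : ℝ) + 2 * (dN A j : ℝ) := by
      have : ∀ v, 2 * (dN A v : ℝ) * x v ^ 2 = (if v = i then 2 * (dN A v : ℝ) else 0)
          + (if v = j then 2 * (dN A v : ℝ) else 0) := by
        intro v
        simp only [hx]
        by_cases h1 : v = i
        · subst h1; simp [hij]
        · by_cases h2 : v = j
          · subst h2; simp [Ne.symm hij]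
          · simp [h1, h2]
      rw [Finset.sum_congr rfl fun v _ => this v, Finset.sum_add_distrib]
      simp
    have h2 : ∑ v, ∑ w, ((aN A v w : ℝ) + aN A w v) * (x v * x w)
        = - (2 * ((aN A i j : ℝ) + aN A j i)) := by
      have h0 : ∀ v, aN A v v = 0 := by
        intro v; unfold aN; rw [if_neg (hirr v)]
      have : ∀ v w, ((aN A v w : ℝ) + aN A w v) * (x v * x w)
          = (if v = i then (if w = j then - ((aN A v w : ℝ) + aN A w v) else 0) else 0)
            + (if v = j then (if w = i then - ((aN A v w : ℝ) + aN A w v) else 0) else 0) := by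
        intro v w
        simp only [hx]
        by_cases k1 : v = i
        · subst k1
          by_cases k2 : w = v
          · subst k2; simp [h0, hij]
          · by_cases k3 : w = j
            · subst k3; simp [hij, k2]
            · simp [hij, k2, k3]
        · by_cases k2 : v = j
          · subst k2
            by_cases k3 : w = v
            · subst k3; simp [h0, k1]
            · by_cases k4 : w = i
              · subst k4; simp [k1, k3]
              · simp [k1, k3, k4]
          · simp [k1, k2]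
      rw [Finset.sum_congr rfl fun v _ => Finset.sum_congr rfl fun w _ => this v w]
      simp only [Finset.sum_add_distrib]
      simp
      ring
    rw [h1, h2]
    unfold Sn
    push_cast
    ring
  have hb := quad_bounds A x hx0
  rw [hx2] at hb
  constructor <;> linarith [hb.1, hb.2]

/-- the graph of the pairs with the larger value of `Sn` -/
def Gr (A : V → V → Prop) (t : ℕ) : SimpleGraph V where
  Adj i j := i ≠ j ∧ Sn A i j = t + 1
  symm := ⟨fun i j h => ⟨h.1.symm, by rw [Sn_symm]; exact h.2⟩⟩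
  loopless := ⟨fun i h => h.1 rfl⟩

lemma quad_Gr (A : V → V → Prop) (hirr : ∀ v, ¬ A v v) (t : ℕ)
    (ht : ∀ i j, i ≠ j → Sn A i j = t ∨ Sn A i j = t + 1) (x : V → ℝ) (hx : ∑ i, x i = 0) :
    2 * (x ⬝ᵥ (lap A *ᵥ x)) = t * ∑ i, x i ^ 2 - Qf (Gr A t) x := by
  classical
  rw [two_quad A x]
  have h0 : ∀ v, aN A v v = 0 := by
    intro v; unfold aN; rw [if_neg (hirr v)]
  have key : ∀ i j, ((aN A i j : ℝ) + aN A j i) * (x i * x j)
      = (if (Gr A t).Adj i j then x i * x j else 0) + (t : ℝ) * (x i * x j)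
        - (dN A i : ℝ) * (x i * x j) - (dN A j : ℝ) * (x i * x j)
        + (if i = j then (2 * (dN A i : ℝ) - t) * x i ^ 2 else 0) := by
    intro i j
    by_cases hij : i = j
    · subst hij
      have h1 : ¬ (Gr A t).Adj i i := (Gr A t).loopless.irrefl i
      rw [if_neg h1, if_pos rfl, h0]; push_cast; ring
    · rw [if_neg hij]
      rcases ht i j hij with h | h
      · have h1 : ¬ (Gr A t).Adj i j := by
          intro h'; have := h'.2; omega
        rw [if_neg h1]
        have h2 : (t : ℝ) = dN A i + dN A j + aN A i j + aN A j i := by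
          rw [← h]; unfold Sn; push_cast; ring
        rw [h2]; ring
      · have h1 : (Gr A t).Adj i j := ⟨hij, h⟩
        rw [if_pos h1]
        have h2 : (t : ℝ) + 1 = dN A i + dN A j + aN A i j + aN A j i := by
          have : ((Sn A i j : ℕ) : ℝ) = t + 1 := by rw [h]; push_cast; ring
          rw [← this]; unfold Sn; push_cast; ring
        have h3 : (t : ℝ) = dN A i + dN A j + aN A i j + aN A j i - 1 := by linarith
        rw [h3]; ring
  have z1 : ∑ i, ∑ j, (t : ℝ) * (x i * x j) = 0 := by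
    simp only [← Finset.mul_sum, hx, mul_zero, Finset.sum_const_zero]
  have z2 : ∑ i, ∑ j, (dN A i : ℝ) * (x i * x j) = 0 := by
    simp only [← Finset.mul_sum, hx, mul_zero, Finset.sum_const_zero]
  have z3 : ∑ i, ∑ j, (dN A j : ℝ) * (x i * x j) = 0 := by
    rw [Finset.sum_comm]
    have : ∀ j i, (dN A j : ℝ) * (x i * x j) = (dN A j : ℝ) * x j * x i := fun j i => by ring
    simp only [this, ← Finset.mul_sum, hx, mul_zero, Finset.sum_const_zero]
  have z4 : ∑ i, ∑ j, (if i = j then (2 * (dN A i : ℝ) - t) * x i ^ 2 else 0)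
      = ∑ i, 2 * (dN A i : ℝ) * x i ^ 2 - t * ∑ i, x i ^ 2 := by
    rw [Finset.mul_sum, ← Finset.sum_sub_distrib]
    refine Finset.sum_congr rfl fun i _ => ?_
    rw [Finset.sum_ite_eq]
    simp; ring
  have : ∑ i, ∑ j, ((aN A i j : ℝ) + aN A j i) * (x i * x j)
      = Qf (Gr A t) x + (∑ i, 2 * (dN A i : ℝ) * x i ^ 2 - t * ∑ i, x i ^ 2) := by
    rw [Finset.sum_congr rfl fun i _ => Finset.sum_congr rfl fun j _ => key i j]
    simp only [Finset.sum_add_distrib, Finset.sum_sub_distrib]
    rw [z1, z2, z3, z4]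
    unfold Qf
    ring
  rw [this]; ring

lemma dvd_Gr (A : V → V → Prop) (hirr : ∀ v, ¬ A v v) (t : ℕ)
    (ht : ∀ i j, i ≠ j → Sn A i j = t ∨ Sn A i j = t + 1) :
    Fintype.card V ∣ Dg (Gr A t) := by
  classical
  have h0 : ∀ v, aN A v v = 0 := by
    intro v; unfold aN; rw [if_neg (hirr v)]
  set n : ℤ := (Fintype.card V : ℤ) with hn
  have key : (Dg (Gr A t) : ℤ) = ∑ i, ∑ j, ((dN A i : ℤ) + dN A j + aN A i j + aN A j i - t
      - (if j = i then (2 * (dN A i : ℤ) - t) else 0)) := by
    apply Dg_int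
    intro i j
    by_cases hij : j = i
    · subst hij
      refine ⟨fun h => absurd h ((Gr A t).loopless.irrefl _), fun _ => ?_⟩
      rw [if_pos rfl, h0]; push_cast; ring
    · rw [if_neg hij]
      have hS : (Sn A i j : ℤ) = (dN A i : ℤ) + dN A j + aN A i j + aN A j i := by
        unfold Sn; push_cast; ring
      constructor
      · intro h
        have h1 : (Sn A i j : ℤ) = t + 1 := by rw [h.2]; push_cast; ring
        rw [← hS, h1]; ring
      · intro h
        have h1 : Sn A i j = t := by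
          rcases ht i j (Ne.symm hij) with h' | h'
          · exact h'
          · exact absurd ⟨Ne.symm hij, h'⟩ h
        rw [← hS, h1]; ring
  have hd : ∀ i, ∑ j, (aN A i j : ℤ) = dN A i := by
    intro i; unfold dN; push_cast; rfl
  have hsw : ∑ i, ∑ j, (aN A j i : ℤ) = ∑ i, (dN A i : ℤ) := by
    rw [Finset.sum_comm]
    exact Finset.sum_congr rfl fun i _ => hd i
  have hval : (Dg (Gr A t) : ℤ) = n * (2 * ∑ i, (dN A i : ℤ) - (n - 1) * t) := by
    rw [key]
    simp only [Finset.sum_add_distrib, Finset.sum_sub_distrib, Finset.sum_ite_eq',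
      Finset.mem_univ, if_true, hd, hsw, Finset.sum_const, Finset.card_univ, nsmul_eq_mul,
      ← Finset.mul_sum]
    rw [← hn]; ring
  have : (Fintype.card V : ℤ) ∣ (Dg (Gr A t) : ℤ) := by rw [hval]; exact dvd_mul_right _ _
  exact_mod_cast this

/-! ### the exceptional case of order four -/

/-- the number `2 α = t + (1 - √3)/2` is not an algebraic integer -/
lemma not_integral (t : ℕ) : ¬ IsIntegral ℤ (((t + (1 - Real.sqrt 3) / 2 : ℝ)) : ℂ) := by
  intro h
  set g : ℝ := t + (1 - Real.sqrt 3) / 2 with hg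
  have hs : Real.sqrt 3 * Real.sqrt 3 = 3 := Real.mul_self_sqrt (by norm_num)
  have hg2 : ((2 * (t : ℝ) ^ 2 + 2 * t - 1) / 2 : ℝ) = (2 * t + 1) * g - g ^ 2 := by
    rw [hg]; nlinarith
  have h1 : IsIntegral ℤ (((2 * (t : ℝ) ^ 2 + 2 * t - 1) / 2 : ℝ) : ℂ) := by
    rw [hg2]
    push_cast
    refine IsIntegral.sub (IsIntegral.mul ?_ h) (h.pow 2)
    have : (2 * (t : ℂ) + 1) = ((2 * t + 1 : ℤ) : ℂ) := by push_cast; ring
    rw [this]
    exact isIntegral_algebraMap
  have h2 : IsIntegral ℤ (((2 * (t : ℚ) ^ 2 + 2 * t - 1) / 2 : ℚ)) := by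
    rw [← isIntegral_algebraMap_iff (R := ℤ) (A := ℚ) (B := ℂ) (algebraMap ℚ ℂ).injective]
    have e : (algebraMap ℚ ℂ) ((2 * (t : ℚ) ^ 2 + 2 * t - 1) / 2)
        = (((2 * (t : ℝ) ^ 2 + 2 * t - 1) / 2 : ℝ) : ℂ) := by
      simp
    rw [e]; exact h1
  obtain ⟨k, hk⟩ := (IsIntegrallyClosed.isIntegral_iff).1 h2
  have h3 : (2 * (t : ℤ) ^ 2 + 2 * t - 1) = 2 * k := by
    have : ((2 * (t : ℤ) ^ 2 + 2 * t - 1 : ℤ) : ℚ) = ((2 * k : ℤ) : ℚ) := by
      push_cast
      have hk' : (k : ℚ) = (2 * (t : ℚ) ^ 2 + 2 * t - 1) / 2 := hk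
      rw [hk']; ring
    exact_mod_cast this
  omega

lemma univ_four [DecidableEq V] (u p q z : V) (hup : u ≠ p) (huq : u ≠ q) (huz : u ≠ z)
    (hpq : p ≠ q) (hpz : p ≠ z) (hqz : q ≠ z) (hn : Fintype.card V = 4) :
    (Finset.univ : Finset V) = {u, p, q, z} := by
  symm
  apply Finset.eq_univ_of_card
  rw [hn, Finset.card_insert_of_notMem, Finset.card_insert_of_notMem,
    Finset.card_insert_of_notMem, Finset.card_singleton]
  · simp [hqz]
  · simp [hpq, hpz]
  · simp [hup, huq, huz]

lemma sum_four (u p q z : V) (hup : u ≠ p) (huq : u ≠ q) (huz : u ≠ z)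
    (hpq : p ≠ q) (hpz : p ≠ z) (hqz : q ≠ z) (hn : Fintype.card V = 4) (g : V → ℝ) :
    ∑ i, g i = g u + g p + g q + g z := by
  classical
  rw [univ_four u p q z hup huq huz hpq hpz hqz hn, Finset.sum_insert, Finset.sum_insert,
    Finset.sum_insert, Finset.sum_singleton]
  · ring
  · simp [hqz]
  · simp [hpq, hpz]
  · simp [hup, huq, huz]

lemma Qf_P3K1 (G : SimpleGraph V) (u p q z : V) (h : P3K1 G u p q z) (hn : Fintype.card V = 4)
    (x : V → ℝ) : Qf G x = 2 * x u * (x p + x q) := by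
  classical
  obtain ⟨hup, huq, huz, hpq, hpz, hqz, a1, a2, a3, a4, a5, a6⟩ := h
  have b1 := a1.symm
  have b2 := a2.symm
  have b3 : ¬ G.Adj q p := fun h => a3 h.symm
  have b4 : ¬ G.Adj z u := fun h => a4 h.symm
  have b5 : ¬ G.Adj z p := fun h => a5 h.symm
  have b6 : ¬ G.Adj z q := fun h => a6 h.symm
  unfold Qf
  rw [sum_four u p q z hup huq huz hpq hpz hqz hn]
  simp only [sum_four u p q z hup huq huz hpq hpz hqz hn]
  simp only [a1, a2, a3, a4, a5, a6, b1, b2, b3, b4, b5, b6, if_true, if_false,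
    SimpleGraph.irrefl]
  ring

lemma alpha_eq (A : V → V → Prop) (hn : 2 ≤ Fintype.card V) (c : ℝ)
    (h1 : ∀ x : V → ℝ, ∑ i, x i = 0 → c * ∑ i, x i ^ 2 ≤ x ⬝ᵥ (lap A *ᵥ x))
    (h2 : ∃ x : V → ℝ, ∑ i, x i = 0 ∧ 0 < ∑ i, x i ^ 2 ∧
      x ⬝ᵥ (lap A *ᵥ x) = c * ∑ i, x i ^ 2) : alpha A = c := by
  apply le_antisymm
  · obtain ⟨x, hx0, hx2, hx⟩ := h2
    have := (quad_bounds A x hx0).1
    rw [hx] at this
    exact le_of_mul_le_mul_right this hx2
  · refine le_csInf (values_nonempty A hn) ?_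
    rintro t ⟨x, hx0, hx1, rfl⟩
    have := h1 x hx0
    rwa [hx1, mul_one] at this

open Classical in
/-- a function on `V` with prescribed values at four vertices -/
noncomputable def fun4 (u p q : V) (a b c d : ℝ) : V → ℝ :=
  fun v => if v = u then a else if v = p then b else if v = q then c else d

lemma case_one (A : V → V → Prop) (G : SimpleGraph V) (u p q z : V) (h : P3K1 G u p q z)
    (hn : Fintype.card V = 4) (t : ℕ)
    (hq : ∀ x : V → ℝ, ∑ i, x i = 0 → 2 * (x ⬝ᵥ (lap A *ᵥ x)) = t * ∑ i, x i ^ 2 - Qf G x) :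
    2 * alpha A = t + (1 - Real.sqrt 3) / 2 := by
  set s := Real.sqrt 3 with hs
  have hs2 : s * s = 3 := Real.mul_self_sqrt (by norm_num)
  have hs0 : 0 ≤ s := Real.sqrt_nonneg 3
  have hs1 : 1 < s := by nlinarith
  have h' := h
  obtain ⟨hup, huq, huz, hpq, hpz, hqz, -⟩ := h'
  have hS := fun g => sum_four u p q z hup huq huz hpq hpz hqz hn g
  have : alpha A = (t + (1 - s) / 2) / 2 := by
    apply alpha_eq A (by omega)
    · intro x hx
      have h1 := hq x hx
      rw [Qf_P3K1 G u p q z h hn, hS] at h1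
      rw [hS] at hx
      rw [hS]
      have hz : x z = - (x u + x p + x q) := by linarith
      rw [hz] at h1 ⊢
      nlinarith [mul_nonneg (sub_nonneg.2 hs1.le) (sq_nonneg (x u - s / 2 * (x p + x q))),
        mul_nonneg (sub_nonneg.2 hs1.le) (sq_nonneg (x p - x q))]
    · refine ⟨fun4 u p q s 1 1 (-(s + 2)), ?_, ?_, ?_⟩
      · rw [hS]; unfold fun4; simp [hup, huq, huz, hpq, hpz, hqz, hup.symm, huq.symm, huz.symm,
          hpq.symm, hpz.symm, hqz.symm]; ring
      · rw [hS]; unfold fun4; simp [hup, huq, huz, hpq, hpz, hqz, hup.symm, huq.symm, huz.symm,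
          hpq.symm, hpz.symm, hqz.symm]; positivity
      · have h0 : ∑ i, fun4 u p q s 1 1 (-(s + 2)) i = 0 := by
          rw [hS]; unfold fun4; simp [hup, huq, huz, hpq, hpz, hqz, hup.symm, huq.symm, huz.symm,
            hpq.symm, hpz.symm, hqz.symm]; ring
        have h1 := hq _ h0
        rw [Qf_P3K1 G u p q z h hn, hS] at h1
        rw [hS]
        have e1 : fun4 u p q s 1 1 (-(s + 2)) u = s := by simp [fun4]
        have e2 : fun4 u p q s 1 1 (-(s + 2)) p = 1 := by simp [fun4, hup.symm]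
        have e3 : fun4 u p q s 1 1 (-(s + 2)) q = 1 := by simp [fun4, huq.symm, hpq.symm]
        have e4 : fun4 u p q s 1 1 (-(s + 2)) z = -(s + 2) := by
          simp [fun4, huz.symm, hpz.symm, hqz.symm]
        rw [e1, e2, e3, e4] at h1 ⊢
        nlinarith
  rw [this]; ring

lemma case_two (A : V → V → Prop) (G : SimpleGraph V) (u p q z : V) (h : P3K1 G u p q z)
    (hn : Fintype.card V = 4) (t : ℕ)
    (hq : ∀ x : V → ℝ, ∑ i, x i = 0 →
      2 * (x ⬝ᵥ (lap A *ᵥ x)) = (t + 1) * ∑ i, x i ^ 2 + Qf G x) :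
    2 * alpha A = t + (1 - Real.sqrt 3) / 2 := by
  set s := Real.sqrt 3 with hs
  have hs2 : s * s = 3 := Real.mul_self_sqrt (by norm_num)
  have hs0 : 0 ≤ s := Real.sqrt_nonneg 3
  have hs1 : 1 < s := by nlinarith
  have h' := h
  obtain ⟨hup, huq, huz, hpq, hpz, hqz, -⟩ := h'
  have hS := fun g => sum_four u p q z hup huq huz hpq hpz hqz hn g
  have hs2' : s < 2 := by nlinarith
  have : alpha A = (t + (1 - s) / 2) / 2 := by
    apply alpha_eq A (by omega)
    · intro x hx
      have h1 := hq x hx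
      rw [Qf_P3K1 G u p q z h hn, hS] at h1
      rw [hS] at hx
      rw [hS]
      have hz : x z = - (x u + x p + x q) := by linarith
      rw [hz] at h1 ⊢
      nlinarith [mul_nonneg (by linarith : (0 : ℝ) ≤ s + 1) (sq_nonneg (x u + s / 2 * (x p + x q))),
        mul_nonneg (by linarith : (0 : ℝ) ≤ s + 1) (sq_nonneg (x p - x q))]
    · refine ⟨fun4 u p q (-s) 1 1 (s - 2), ?_, ?_, ?_⟩
      · rw [hS]; unfold fun4; simp [hup, huq, huz, hpq, hpz, hqz, hup.symm, huq.symm, huz.symm,
          hpq.symm, hpz.symm, hqz.symm]; ring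
      · rw [hS]; unfold fun4; simp [hup, huq, huz, hpq, hpz, hqz, hup.symm, huq.symm, huz.symm,
          hpq.symm, hpz.symm, hqz.symm]; positivity
      · have h0 : ∑ i, fun4 u p q (-s) 1 1 (s - 2) i = 0 := by
          rw [hS]; unfold fun4; simp [hup, huq, huz, hpq, hpz, hqz, hup.symm, huq.symm, huz.symm,
            hpq.symm, hpz.symm, hqz.symm]; ring
        have h1 := hq _ h0
        rw [Qf_P3K1 G u p q z h hn, hS] at h1
        rw [hS]
        have e1 : fun4 u p q (-s) 1 1 (s - 2) u = -s := by simp [fun4]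
        have e2 : fun4 u p q (-s) 1 1 (s - 2) p = 1 := by simp [fun4, hup.symm]
        have e3 : fun4 u p q (-s) 1 1 (s - 2) q = 1 := by simp [fun4, huq.symm, hpq.symm]
        have e4 : fun4 u p q (-s) 1 1 (s - 2) z = s - 2 := by
          simp [fun4, huz.symm, hpz.symm, hqz.symm]
        rw [e1, e2, e3, e4] at h1 ⊢
        nlinarith
  rw [this]; ring

/-- **MP_e61cf5, Q1.** No polygonal digraph (loopless, no repeated arcs) of order `n ≥ 2` has a
Laplacian spread strictly between `0` and `1`. -/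
theorem result {V : Type*} [Fintype V] (A : V → V → Prop) (hirr : ∀ v, ¬ A v v)
    (hn : 2 ≤ Fintype.card V) (hpoly : IsPolygonal A) : ¬ (0 < spread A ∧ spread A < 1) := by
  classical
  rintro ⟨hs0, hs1⟩
  -- the minimum of the numbers `Sn`
  obtain ⟨i1, j1, hij1⟩ := Fintype.exists_pair_of_one_lt_card (α := V) (by omega)
  obtain ⟨⟨i0, j0⟩, hmem, hmin⟩ := Finset.exists_min_image
    ((Finset.univ : Finset (V × V)).filter fun p => p.1 ≠ p.2) (fun p => Sn A p.1 p.2)
    ⟨(i1, j1), by simp [hij1]⟩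
  have hij0 : i0 ≠ j0 := by simpa using hmem
  set t := Sn A i0 j0 with htdef
  have ht : ∀ i j, i ≠ j → Sn A i j = t ∨ Sn A i j = t + 1 := by
    intro i j hij
    have h1 : t ≤ Sn A i j := hmin (i, j) (by simp [hij])
    have h2 : (Sn A i j : ℝ) < t + 2 := by
      have b1 := (test_pair A hirr i0 j0 hij0).1
      have b2 := (test_pair A hirr i j hij).2
      have b3 : spread A = beta A - alpha A := rfl
      rw [b3] at hs1
      rw [← htdef] at b1
      linarith
    have h3 : Sn A i j < t + 2 := by exact_mod_cast h2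
    omega
  set G := Gr A t with hG
  have hquad := quad_Gr A hirr t ht
  -- spread condition
  have hSL : SL G := by
    intro x y hx hy hx2 hy2
    have hxq := hquad x hx
    have hyq := hquad y hy
    have bx := (quad_bounds A x hx).1
    have by' := (quad_bounds A y hy).2
    have b3 : spread A = beta A - alpha A := rfl
    rw [b3] at hs1
    have e1 : Qf G x ≤ (t - 2 * alpha A) * ∑ i, x i ^ 2 := by nlinarith
    have e2 : (t - 2 * beta A) * ∑ i, y i ^ 2 ≤ Qf G y := by nlinarith
    have e3 := mul_le_mul_of_nonneg_right e1 hy2.le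
    have e4 := mul_le_mul_of_nonneg_right e2 hx2.le
    have e5 : 2 * (beta A - alpha A) * ((∑ i, x i ^ 2) * ∑ i, y i ^ 2)
        < 2 * ((∑ i, x i ^ 2) * ∑ i, y i ^ 2) := by
      have := mul_pos hx2 hy2
      nlinarith
    nlinarith
  -- there is an edge
  have hedge : ∃ a b, G.Adj a b := by
    by_contra hcon
    push Not at hcon
    have : spread A = 0 := by
      apply spread_zero A (t / 2)
      intro x hx
      have h1 := hquad x hx
      have h2 : Qf G x = 0 := by
        unfold Qf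
        exact Finset.sum_eq_zero fun i _ => Finset.sum_eq_zero fun j _ => if_neg (hcon i j)
      rw [h2] at h1
      linarith
    rw [this] at hs0
    exact lt_irrefl _ hs0
  have hnadj : ¬ G.Adj i0 j0 := by
    intro h
    have := h.2
    omega
  have hn3 : 3 ≤ Fintype.card V := by
    by_contra hlt
    have hcard : Fintype.card V = 2 := by omega
    obtain ⟨a, b, hab⟩ := hedge
    have huniv : (Finset.univ : Finset V) = {i0, j0} := by
      symm
      apply Finset.eq_univ_of_card
      rw [Finset.card_pair hij0, hcard]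
    have ha : a = i0 ∨ a = j0 := by
      have : a ∈ (Finset.univ : Finset V) := Finset.mem_univ a
      rw [huniv] at this; simpa using this
    have hb : b = i0 ∨ b = j0 := by
      have : b ∈ (Finset.univ : Finset V) := Finset.mem_univ b
      rw [huniv] at this; simpa using this
    rcases ha with rfl | rfl <;> rcases hb with rfl | rfl
    · exact G.loopless.irrefl _ hab
    · exact hnadj hab
    · exact hnadj hab.symm
    · exact G.loopless.irrefl _ hab
  have hdvd : Fintype.card V ∣ Dg G := dvd_Gr A hirr t ht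
  -- the value of `2 α`
  have hal : 2 * alpha A = t + (1 - Real.sqrt 3) / 2 := by
    have hne : Nonempty V := ⟨i0⟩
    obtain ⟨u, hu⟩ := exists_dom G hSL
    by_cases hiso : ∃ z, ∀ v, ¬ G.Adj z v
    · obtain ⟨z, hz⟩ := hiso
      obtain ⟨h4, u, p, q, hP⟩ := classify G hSL hn3 z hz hedge hdvd
      exact case_one A G u p q z hP h4 t hquad
    · push Not at hiso
      have hzc : ∀ v, ¬ Gᶜ.Adj u v := by
        intro v hv
        rw [SimpleGraph.compl_adj] at hv
        obtain ⟨w, hw⟩ := hiso v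
        exact hv.2 (hu w v hw.symm hv.1.symm)
      have hdvdc : Fintype.card V ∣ Dg Gᶜ := by
        have h1 := Dg_compl G
        have h2 : Fintype.card V ∣ Dg Gᶜ + Dg G + Fintype.card V := by
          rw [h1]; exact dvd_mul_right _ _
        have h3 := (Nat.dvd_add_right (dvd_refl (Fintype.card V))).1
          (by rwa [add_comm] at h2)
        rw [add_comm] at h3
        exact (Nat.dvd_add_right hdvd).1 h3
      obtain ⟨h4, u', p, q, hP⟩ := classify Gᶜ (SL_compl G hSL) hn3 u hzc
        ⟨i0, j0, by rw [SimpleGraph.compl_adj]; exact ⟨hij0, hnadj⟩⟩ hdvdc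
      refine case_two A Gᶜ u' p q u hP h4 t fun x hx => ?_
      rw [hquad x hx, Qf_compl G x hx]
      ring
  -- an algebraic integer with real part `α`
  obtain ⟨Q, hQ, hW⟩ := hpoly
  obtain ⟨l, hl, hre⟩ := exists_eig A hn Q hW
  have hint := eig_integral A hn Q hQ l hl
  have hconj : IsIntegral ℤ (starRingEnd ℂ l) :=
    hint.map (starRingEnd ℂ : ℂ →+* ℂ).toIntAlgHom
  have hsum : IsIntegral ℤ (l + starRingEnd ℂ l) := hint.add hconj
  rw [Complex.add_conj, hre, hal] at hsum
  exact not_integral t hsum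

end Pool.Agent.Results.MP_e61cf5_co.PolygonalGap
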